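import Pool.Agent.GTO.StmtsC
import Pool.Agent.Helper38_GTO.Fin

/-! Squad GTO, row UPP (helper97). -/

namespace Pool.Agent.GTO.H97

open Finset
open scoped Classical

/-- the points `q` counted at `p` -/
noncomputable def tq {ι : Type} [Fintype ι] (a : ι → V) (c : Fin 10 → ℝ) (p : ι) : Finset ι :=
  univ.filter fun q => p ∈ Zc a c ∧ q ∉ Zc a c ∧ ∃ k ∈ Zc a c, k ≠ p ∧ ln a p q = {p, q, k}

theorem TT_eq {ι : Type} [Fintype ι] (a : ι → V) (c : Fin 10 → ℝ) :
    TT a c = ∑ p : ι, (tq a c p).card := by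
  unfold TT
  rw [Finset.card_eq_sum_card_fiberwise (f := Prod.fst) (t := univ) (by intro x _; simp)]
  refine Finset.sum_congr rfl ?_
  intro p _
  refine Finset.card_bij (fun x _ => x.2) ?_ ?_ ?_
  · intro x hx
    simp only [mem_filter, mem_univ, true_and, tq] at hx ⊢
    obtain ⟨⟨h1, h2, h3⟩, rfl⟩ := hx
    exact ⟨h1, h2, h3⟩
  · intro x hx y hy hxy
    simp only [mem_filter, mem_univ, true_and] at hx hy
    exact Prod.ext (hx.2.trans hy.2.symm) hxy
  · intro q hq
    simp only [mem_filter, mem_univ, true_and, tq] at hq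
    exact ⟨(p, q), by simpa using hq, rfl⟩

theorem BF_eq {ι : Type} [Fintype ι] (a : ι → V) :
    BF a = ∑ p : ι, (univ.filter fun σ => Tope a σ ∧ Tope a (flp σ p) ∧ ¬ IsGood a σ).card := by
  unfold BF
  rw [Finset.card_eq_sum_card_fiberwise (f := Prod.snd) (t := univ) (by intro x _; simp)]
  refine Finset.sum_congr rfl ?_
  intro p _
  refine Finset.card_bij (fun x _ => x.1) ?_ ?_ ?_
  · intro x hx
    simp only [mem_filter, mem_univ, true_and] at hx ⊢
    obtain ⟨⟨h1, h2, h3⟩, rfl⟩ := hx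
    exact ⟨h1, h2, h3⟩
  · intro x hx y hy hxy
    simp only [mem_filter, mem_univ, true_and] at hx hy
    exact Prod.ext hxy (hx.2.trans hy.2.symm)
  · intro q hq
    simp only [mem_filter, mem_univ, true_and] at hq
    exact ⟨(q, p), by simpa using hq, rfl⟩

theorem point {ι : Type} [Fintype ι] (a : ι → V) (hPI : PI a) (hLVX : LvxStmt) (hGDW : GdwStmt)
    (h2 : 2 ≤ Fintype.card ι) (c : Fin 10 → ℝ) (p : ι) :
    4 * (tq a c p).card ≤
      {d : Dat ι | (Good a d ∧ d.u ∈ Zc a c ∧ ((d.v ∈ Zc a c ∧ d.w' ∉ Zc a c) ∨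
        (d.v ∉ Zc a c ∧ d.w' ∈ Zc a c))) ∧ d.u = p}.ncard +
      (univ.filter fun σ => Tope a σ ∧ Tope a (flp σ p) ∧ ¬ IsGood a σ).card := by
  have hfin := H38.finite_dat ι
  by_cases hp : p ∈ Zc a c
  swap
  · have : tq a c p = ∅ := by
      rw [Finset.eq_empty_iff_forall_notMem]
      intro q hq
      simp only [tq, mem_filter, mem_univ, true_and] at hq
      exact hp hq.1
    rw [this]
    simp
  obtain ⟨hL1, hL2⟩ := hLVX ι a hPI h2
  have h1 := hL1 p
  set bf := (univ.filter fun σ => Tope a σ ∧ Tope a (flp σ p) ∧ ¬ IsGood a σ).card with hbf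
  set L := (lns a).filter fun ℓ => p ∈ ℓ with hL
  set T := (tq a c p).image (fun q => ln a p q) with hT
  have hTL : T ⊆ L := by
    intro ℓ hℓ
    simp only [hT, mem_image, tq, mem_filter, mem_univ, true_and] at hℓ
    obtain ⟨q, ⟨_, hq, k, hk, hkp, he⟩, rfl⟩ := hℓ
    simp only [hL, mem_filter, lns, mem_image, mem_univ, true_and]
    refine ⟨⟨(p, q), ?_, rfl⟩, ?_⟩
    · intro h
      simp only at h
      exact hq (h ▸ hp)
    · rw [he]
      simp
  have hTc : T.card = (tq a c p).card := by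
    rw [hT]
    refine Finset.card_image_of_injOn ?_
    intro q hq q' hq' h
    simp only [tq, coe_filter, mem_univ, true_and, Set.mem_ofPred_eq] at hq hq'
    obtain ⟨_, hq1, k, hk, hkp, he⟩ := hq
    obtain ⟨_, hq1', k', hk', hkp', he'⟩ := hq'
    simp only at h
    rw [he, he'] at h
    have : q ∈ ({p, q', k'} : Finset ι) := by
      rw [← h]
      simp
    simp only [mem_insert, mem_singleton] at this
    rcases this with rfl | rfl | rfl
    · exact absurd hp hq1
    · rfl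
    · exact absurd hk' hq1
  have hsplit := H38.ncard_split (fun d : Dat ι => Good a d ∧ d.u = p)
    (fun d => ln a d.u d.v ∈ T)
  have hfew : {d : Dat ι | (Good a d ∧ d.u = p) ∧ ¬ ln a d.u d.v ∈ T}.ncard ≤ 4 * (L \ T).card := by
    refine H38.ncard_le_four (fun d : Dat ι => (Good a d ∧ d.u = p) ∧ ¬ ln a d.u d.v ∈ T)
      (fun d => ln a d.u d.v) (L \ T) ?_ ?_
    · rintro d ⟨⟨hg, hu⟩, hn⟩
      simp only [mem_sdiff]
      refine ⟨?_, hn⟩
      have hnd := hg.1
      have huv : d.u ≠ d.v := by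
        intro h
        simp [h] at hnd
      obtain ⟨_, _, _, _, h5⟩ := hGDW ι a hPI d hg
      simp only [hL, mem_filter, lns, mem_image, mem_univ, true_and]
      refine ⟨⟨(d.u, d.v), huv, rfl⟩, ?_⟩
      rw [h5, ← hu]
      simp
    · intro ℓ
      refine le_trans (Set.ncard_le_ncard ?_ (Set.toFinite _)) (hL2 p ℓ)
      rintro d ⟨⟨⟨hg, hu⟩, hn⟩, he⟩
      exact ⟨hg, hu, he⟩
  have hmany : {d : Dat ι | (Good a d ∧ d.u = p) ∧ ln a d.u d.v ∈ T}.ncard ≤
      {d : Dat ι | (Good a d ∧ d.u ∈ Zc a c ∧ ((d.v ∈ Zc a c ∧ d.w' ∉ Zc a c) ∨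
        (d.v ∉ Zc a c ∧ d.w' ∈ Zc a c))) ∧ d.u = p}.ncard := by
    refine Set.ncard_le_ncard ?_ (Set.toFinite _)
    rintro d ⟨⟨hg, hu⟩, hm⟩
    refine ⟨⟨hg, by rw [hu]; exact hp, ?_⟩, hu⟩
    simp only [hT, mem_image, tq, mem_filter, mem_univ, true_and] at hm
    obtain ⟨q, ⟨_, hq, k, hk, hkp, he⟩, he2⟩ := hm
    obtain ⟨_, _, _, _, h5⟩ := hGDW ι a hPI d hg
    rw [h5, he, hu] at he2
    have hnd := hg.1
    simp only [List.nodup_cons, List.mem_cons, List.not_mem_nil, or_false, not_or,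
      List.nodup_nil, and_true, not_false_eq_true] at hnd
    obtain ⟨⟨huv, huw, huu', huv', huw'⟩, ⟨hvw, hvu', hvv', hvw'⟩, _⟩ := hnd
    have hv : d.v = q ∨ d.v = k := by
      have : d.v ∈ ({p, q, k} : Finset ι) := by
        rw [he2]
        simp
      simp only [mem_insert, mem_singleton] at this
      rcases this with h | h | h
      · exact absurd (hu.trans h.symm) huv
      · exact Or.inl h
      · exact Or.inr h
    have hw : d.w' = q ∨ d.w' = k := by
      have : d.w' ∈ ({p, q, k} : Finset ι) := by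
        rw [he2]
        simp
      simp only [mem_insert, mem_singleton] at this
      rcases this with h | h | h
      · exact absurd (hu.trans h.symm) huw'
      · exact Or.inl h
      · exact Or.inr h
    rcases hv with hv | hv <;> rcases hw with hw | hw
    · exact absurd (hv.trans hw.symm) hvw'
    · right
      rw [hv, hw]
      exact ⟨hq, hk⟩
    · left
      rw [hv, hw]
      exact ⟨hk, hq⟩
    · exact absurd (hv.trans hw.symm) hvw'
  have hsd : (L \ T).card + T.card = rr a p := by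
    rw [Finset.card_sdiff_add_card_eq_card hTL, hL, rr]
  omega

theorem upp (hUPX : UpxStmt) (hLVX : LvxStmt) (hGDW : GdwStmt) (hEBD : EbdStmt) : UppStmt := by
  intro ι _ a hPI hSpn hn c hc hbig
  have hX := hUPX ι a hPI hSpn hn c hc hbig
  obtain ⟨hE1, hE2⟩ := hEBD ι a hPI hSpn
  rw [H38.ncard_fib] at hX
  have hsum : ∑ p : ι, 4 * (tq a c p).card ≤ ∑ p : ι,
      ({d : Dat ι | (Good a d ∧ d.u ∈ Zc a c ∧ ((d.v ∈ Zc a c ∧ d.w' ∉ Zc a c) ∨
        (d.v ∉ Zc a c ∧ d.w' ∈ Zc a c))) ∧ d.u = p}.ncard +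
      (univ.filter fun σ => Tope a σ ∧ Tope a (flp σ p) ∧ ¬ IsGood a σ).card) :=
    Finset.sum_le_sum fun p _ => point a hPI hLVX hGDW (by omega) c p
  rw [← Finset.mul_sum, ← TT_eq, Finset.sum_add_distrib, ← BF_eq] at hsum
  omega

end Pool.Agent.GTO.H97
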