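import Pool.Agent.GTO.StmtsC
import Pool.Agent.Helper38_GTO.Fin

/-! Squad GTO, row UPX (helper97). -/

namespace Pool.Agent.GTO.H97

open Finset
open scoped Classical

variable {ι : Type} [Fintype ι]

/-- mixed data -/
def Mx (a : ι → V) (c : Fin 10 → ℝ) (d : Dat ι) : Prop :=
  Good a d ∧ d.u ∈ Zc a c ∧ ((d.v ∈ Zc a c ∧ d.w' ∉ Zc a c) ∨ (d.v ∉ Zc a c ∧ d.w' ∈ Zc a c))

/-- chain of `L` columns -/
def Ch (a : ι → V) (f : ℕ → Dat ι) (L : ℕ) : Prop := ∀ i < L, Col a (f i) (f (i + 1))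

theorem l1 (a : ι → V) (hPI : PI a) (hRUN : RunStmt) (hCUB : CubStmt) (f : ℕ → Dat ι) (L : ℕ)
    (hL : 3 ≤ L) (hn : 2 * L + 5 < Fintype.card ι) (hf : Ch a f L) :
    ∃ c' : Fin 10 → ℝ, c' ≠ 0 ∧ (∀ i ≤ L, (f i).v ∈ Zc a c' ∧ (f i).w' ∈ Zc a c') ∧
      ∀ i ≤ L, ∀ j ≤ L, (f i).v ≠ (f j).w' ∧ (i ≠ j → (f i).v ≠ (f j).v ∧ (f i).w' ≠ (f j).w') := by
  obtain ⟨Gm, G1, G2, hrun⟩ := hRUN ι a hPI L f hn hL hf
  obtain ⟨c', hc', _, _, _, _, h⟩ := hCUB ι a hPI (L - 1) _ _ _ _ _ _ hrun (by omega)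
  refine ⟨c', hc', ?_, ?_⟩
  · intro i hi
    have := h i (by omega)
    simp only [Zc, mem_filter, mem_univ, true_and]
    exact this
  · intro i hi j hj
    exact hrun.2.2.2.2.1 i (by omega) j (by omega)

theorem l2 (a : ι → V) (hPI : PI a) (hZZZ : ZzzStmt) (c c' : Fin 10 → ℝ) (hc : NoLine c)
    (hc' : c' ≠ 0) (d : Dat ι) (hd : Mx a c d) (hv : d.v ∈ Zc a c') (hw : d.w' ∈ Zc a c')
    (h10 : 10 ≤ (Zc a c ∩ Zc a c').card) : False := by
  have h := ((hZZZ ι a hPI).1 c c' hc hc' h10).1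
  rw [← h] at hv hw
  rcases hd.2.2 with h1 | h1
  · exact h1.2 hw
  · exact h1.1 hv

theorem l3 (a : ι → V) (hPI : PI a) (hRUN : RunStmt) (hCUB : CubStmt) (hZZZ : ZzzStmt)
    (hn : 30000 ≤ Fintype.card ι) (c : Fin 10 → ℝ) (hc : NoLine c)
    (hbig : 2 * (Fintype.card ι - (Zc a c).card) + 460 ≤ Fintype.card ι)
    (f : ℕ → Dat ι) (L : ℕ) (hf : Ch a f L) (hd : Mx a c (f 0)) :
    L < (Fintype.card ι - 6) / 2 := by
  by_contra hcon
  obtain ⟨c', hc', hz, hne⟩ := l1 a hPI hRUN hCUB f ((Fintype.card ι - 6) / 2) (by omega)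
    (by omega) (fun i hi => hf i (by omega))
  have h0 := hz 0 (by omega)
  refine l2 a hPI hZZZ c c' hc hc' (f 0) hd h0.1 h0.2 ?_
  set N := (Fintype.card ι - 6) / 2 with hN
  have hA : ((range (N + 1)).image fun i => (f i).v).card = N + 1 := by
    rw [Finset.card_image_of_injOn, card_range]
    intro i hi j hj hij
    simp only [coe_range, Set.mem_Iio] at hi hj
    by_contra hne'
    exact ((hne i (by omega) j (by omega)).2 hne').1 hij
  have hB : ((range (N + 1)).image fun i => (f i).w').card = N + 1 := by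
    rw [Finset.card_image_of_injOn, card_range]
    intro i hi j hj hij
    simp only [coe_range, Set.mem_Iio] at hi hj
    by_contra hne'
    exact ((hne i (by omega) j (by omega)).2 hne').2 hij
  have hdis : Disjoint ((range (N + 1)).image fun i => (f i).v)
      ((range (N + 1)).image fun i => (f i).w') := by
    rw [Finset.disjoint_left]
    intro x hx hy
    simp only [mem_image, mem_range] at hx hy
    obtain ⟨i, hi, rfl⟩ := hx
    obtain ⟨j, hj, hij⟩ := hy
    exact (hne i (by omega) j (by omega)).1 hij.symm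
  have hsub : ((range (N + 1)).image fun i => (f i).v) ∪
      ((range (N + 1)).image fun i => (f i).w') ⊆ Zc a c' := by
    intro x hx
    simp only [mem_union, mem_image, mem_range] at hx
    rcases hx with ⟨i, hi, rfl⟩ | ⟨i, hi, rfl⟩
    · exact (hz i (by omega)).1
    · exact (hz i (by omega)).2
  have h1 := Finset.card_le_card hsub
  rw [Finset.card_union_of_disjoint hdis, hA, hB] at h1
  have h2 := Finset.card_union_add_card_inter (Zc a c) (Zc a c')
  have h3 : (Zc a c ∪ Zc a c').card ≤ Fintype.card ι := Finset.card_le_univ _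
  have h4 : (Zc a c).card ≤ Fintype.card ι := Finset.card_le_univ _
  omega

theorem l4 (a : ι → V) (hPI : PI a) (hCOL : ColStmt) (hRUN : RunStmt) (hCUB : CubStmt)
    (hZZZ : ZzzStmt)
    (hn : 30000 ≤ Fintype.card ι) (c : Fin 10 → ℝ) (hc : NoLine c)
    (hbig : 2 * (Fintype.card ι - (Zc a c).card) + 460 ≤ Fintype.card ι)
    (d : Dat ι) (hd : Mx a c d) :
    ∃ (ψ : Dat ι) (L : ℕ) (f : ℕ → Dat ι), f 0 = d ∧ f L = ψ ∧ Ch a f L ∧ Good a ψ ∧
      ¬ ∃ g, Col a ψ g := by
  by_contra hcon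
  have hall : ∀ L : ℕ, ∃ f : ℕ → Dat ι, f 0 = d ∧ Ch a f L := by
    intro L
    induction L with
    | zero => exact ⟨fun _ => d, rfl, fun i hi => absurd hi (by omega)⟩
    | succ L ih =>
      obtain ⟨f, h0, hf⟩ := ih
      have hg : Good a (f L) := by
        rcases Nat.eq_zero_or_pos L with rfl | hL
        · rw [h0]
          exact hd.1
        · have := ((hCOL ι a hPI).2.2 _ _ (hf (L - 1) (by omega))).2.1
          rwa [Nat.sub_add_cancel hL] at this
      have hex : ∃ g, Col a (f L) g := by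
        by_contra hno
        exact hcon ⟨f L, L, f, h0, rfl, hf, hg, hno⟩
      obtain ⟨g, hg'⟩ := hex
      refine ⟨fun i => if i ≤ L then f i else g, by simp [h0], ?_⟩
      intro i hi
      rcases Nat.lt_or_ge i L with h | h
      · have h1 : i ≤ L := by omega
        have h2 : i + 1 ≤ L := by omega
        simp only [h1, h2, if_true]
        exact hf i h
      · have h1 : i = L := by omega
        subst h1
        simp only [le_refl, if_true, Nat.not_succ_le_self, if_false]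
        exact hg'
  obtain ⟨f, h0, hf⟩ := hall ((Fintype.card ι - 6) / 2)
  have := l3 a hPI hRUN hCUB hZZZ hn c hc hbig f _ hf (by rw [h0]; exact hd)
  omega

/-- backward uniqueness -/
theorem l5 (a : ι → V) (hPI : PI a) (hCOL : ColStmt) (f g : ℕ → Dat ι) (L : ℕ) (hf : Ch a f L)
    (hg : Ch a g L) (h : f L = g L) : ∀ i ≤ L, f i = g i := by
  intro i hi
  obtain ⟨k, rfl⟩ := Nat.exists_eq_add_of_le hi
  clear hi
  induction k generalizing i with
  | zero => exact h
  | succ k ih =>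
    have h1 := ih (i + 1) (by rwa [show i + 1 + k = i + (k + 1) by ring])
      (by rwa [show i + 1 + k = i + (k + 1) by ring]) (by rwa [show i + 1 + k = i + (k + 1) by ring])
    have h2 := hf i (by omega)
    have h3 := hg i (by omega)
    rw [h1] at h2
    exact (hCOL ι a hPI).2.1 _ _ _ h2 h3

theorem l6 (a : ι → V) (hPI : PI a) (hCOL : ColStmt) (hRUN : RunStmt) (hCUB : CubStmt)
    (hZZZ : ZzzStmt)
    (hn : 30000 ≤ Fintype.card ι) (c : Fin 10 → ℝ) (hc : NoLine c)
    (hbig : 2 * (Fintype.card ι - (Zc a c).card) + 460 ≤ Fintype.card ι)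
    (ψ : Dat ι) (S : Finset (Dat ι)) (hS : ∀ d ∈ S, Mx a c d ∧ ∃ (L : ℕ) (f : ℕ → Dat ι),
      f 0 = d ∧ f L = ψ ∧ Ch a f L) : S.card ≤ 9 := by
  by_contra hcon
  have h10 : 10 ≤ S.card := by omega
  have hne : S.Nonempty := Finset.card_pos.1 (by omega)
  choose! hm L f h0 hψ hch using hS
  -- the longest way
  obtain ⟨d₀, hd₀, hmax⟩ := Finset.exists_max_image S L hne
  have hpos : ∀ d ∈ S, f d₀ (L d₀ - L d) = d := by
    intro d hd
    have hle := hmax d hd
    have := l5 a hPI hCOL (fun i => f d₀ (L d₀ - L d + i)) (f d) (L d) (by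
      intro i hi
      have := hch d₀ hd₀ (L d₀ - L d + i) (by omega)
      exact this) (hch d hd) (by
      rw [Nat.sub_add_cancel hle, hψ d₀ hd₀, hψ d hd]) 0 (by omega)
    simp only [add_zero] at this
    rw [this, h0 d hd]
  have hinj : Set.InjOn (fun d => L d₀ - L d) (S : Set (Dat ι)) := by
    intro d hd d' hd' h
    simp only at h
    rw [← hpos d hd, ← hpos d' hd', h]
  have hlen : 10 ≤ L d₀ + 1 := by
    have h1 : (S.image fun d => L d₀ - L d) ⊆ range (L d₀ + 1) := by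
      intro x hx
      simp only [mem_image] at hx
      obtain ⟨d, _, rfl⟩ := hx
      simp only [mem_range]
      omega
    have h2 := Finset.card_le_card h1
    rw [Finset.card_image_of_injOn hinj, card_range] at h2
    omega
  have hlt := l3 a hPI hRUN hCUB hZZZ hn c hc hbig (f d₀) (L d₀) (hch d₀ hd₀)
    (by rw [h0 d₀ hd₀]; exact hm d₀ hd₀)
  obtain ⟨c', hc', hz, hdiff⟩ := l1 a hPI hRUN hCUB (f d₀) (L d₀) (by omega) (by omega)
    (hch d₀ hd₀)
  have hz0 := hz 0 (by omega)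
  refine l2 a hPI hZZZ c c' hc hc' (f d₀ 0) (by rw [h0 d₀ hd₀]; exact hm d₀ hd₀) hz0.1 hz0.2 ?_
  refine le_trans h10 ?_
  refine Finset.card_le_card_of_injOn (fun d => if d.v ∈ Zc a c then d.v else d.w') ?_ ?_
  · intro d hd
    have hd' : d ∈ S := hd
    have hzz := hz (L d₀ - L d) (by omega)
    rw [hpos d hd'] at hzz
    have hmx := (hm d hd').2.2
    simp only [coe_inter, Set.mem_inter_iff, mem_coe]
    split_ifs with h
    · exact ⟨h, hzz.1⟩
    · rcases hmx with h1 | h1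
      · exact absurd h1.1 h
      · exact ⟨h1.2, hzz.2⟩
  · intro d hd d' hd' h
    have hdS : d ∈ S := hd
    have hdS' : d' ∈ S := hd'
    by_contra hneq
    have hij : L d₀ - L d ≠ L d₀ - L d' := fun h => hneq (hinj hd hd' h)
    have hx := hdiff (L d₀ - L d) (by omega) (L d₀ - L d') (by omega)
    have hy := hdiff (L d₀ - L d') (by omega) (L d₀ - L d) (by omega)
    rw [hpos d hdS, hpos d' hdS'] at hx hy
    simp only at h
    split_ifs at h with h1 h2 h2
    · exact (hx.2 hij).1 h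
    · exact hx.1 h
    · exact hy.1 h.symm
    · exact (hx.2 hij).2 h

theorem upx (hCOL : ColStmt) (hCN6 : Cn6Stmt) (hRUN : RunStmt) (hCUB : CubStmt)
    (hZZZ : ZzzStmt) : UpxStmt := by
  intro ι _ a hPI hSpn hn c hc hbig
  have hfin := H38.finite_dat ι
  have := Fintype.ofFinite (Dat ι)
  have key : ∀ Q : Dat ι → Prop, {d : Dat ι | Q d}.ncard = (univ.filter Q).card := by
    intro Q
    rw [← Set.ncard_coe_finset]
    congr 1
    ext d
    simp
  have h6 := hCN6 ι a hPI
  have hex := l4 a hPI hCOL hRUN hCUB hZZZ hn c hc hbig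
  choose! F L f h0 hF hch hgood hno using hex
  change {d : Dat ι | Mx a c d}.ncard ≤ _
  rw [key] at h6 ⊢
  have h6' : (univ.filter fun d : Dat ι => Good a d ∧ ¬ ∃ f, Col a d f).card ≤ 6 * EE a := by
    refine le_trans (le_of_eq ?_) h6
    congr 1
    ext d
    simp only [mem_filter, mem_univ, true_and]
  refine le_trans (Finset.card_le_mul_card_image_of_maps_to (f := F)
    (t := univ.filter fun d => Good a d ∧ ¬ ∃ f, Col a d f) ?_ 9 ?_) (Nat.mul_le_mul_left 9 h6')
  · intro d hd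
    simp only [mem_filter, mem_univ, true_and] at hd ⊢
    exact ⟨hgood d hd, hno d hd⟩
  · intro ψ _
    refine l6 a hPI hCOL hRUN hCUB hZZZ hn c hc hbig ψ _ ?_
    intro d hd
    simp only [mem_filter, mem_univ, true_and] at hd
    exact ⟨hd.1, L d, f d, h0 d hd.1, by rw [hF d hd.1, hd.2], hch d hd.1⟩

end Pool.Agent.GTO.H97
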