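import Pool.Agent.GTO.StmtsC

/-! Squad GTO, row ZZZ (helper97). -/

namespace Pool.Agent.GTO.H97

open Finset
open scoped Classical

theorem zzz (hBAS : BasStmt) (hLNF : LnfStmt) (hBZ9 : Bz9Stmt) : ZzzStmt := by
  intro ι _ a hPI
  refine ⟨?_, ?_, ?_⟩
  · intro c c' hc hc' h10
    have hmul : Mul c c' := by
      by_contra hn
      obtain ⟨s, hs, hcard⟩ := Finset.exists_subset_card_eq h10
      let e := s.equivFinOfCardEq hcard
      have hinj : ∀ i j, i ≠ j → ((e.symm i : s) : ι) ≠ ((e.symm j : s) : ι) := by
        intro i j hij h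
        exact hij (e.symm.injective (Subtype.ext h))
      obtain ⟨i, hi⟩ := hBZ9 c c' (fun i => a (e.symm i : s)) hc hn
        (fun i j hij => hPI _ _ (hinj i j hij))
      have hmem := hs (e.symm i).2
      simp only [Zc, mem_inter, mem_filter, mem_univ, true_and] at hmem
      rcases hi with hi | hi
      · exact hi hmem.1
      · exact hi hmem.2
    refine ⟨?_, hmul⟩
    obtain ⟨t, ht⟩ := hmul
    have ht0 : t ≠ 0 := by
      rintro rfl
      exact hc' (by rw [ht, zero_smul])
    have hcub : ∀ v : V, cub c' v = t * cub c v := by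
      intro v
      rw [ht]
      simp only [cub, Pi.smul_apply, smul_eq_mul]
      ring
    ext i
    simp only [Zc, mem_filter, mem_univ, true_and, hcub, mul_eq_zero, ht0, false_or]
  · intro c hc h0
    obtain ⟨s, t, h⟩ := hc ![1, 0, 0] ![0, 1, 0] (by
      intro h
      have := congrFun h 2
      simp [cr] at this)
    exact h (by simp [h0, cub])
  · intro c i j hc hij
    by_contra hcon
    have h4 : 4 ≤ (ln a i j ∩ Zc a c).card := by omega
    obtain ⟨s, hs, hcard⟩ := Finset.exists_subset_card_eq h4
    let e := s.equivFinOfCardEq hcard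
    have hinj : ∀ i j, i ≠ j → ((e.symm i : s) : ι) ≠ ((e.symm j : s) : ι) := by
      intro i j hij h
      exact hij (e.symm.injective (Subtype.ext h))
    have hw : cr (a i) (a j) ≠ 0 := hPI i j hij
    obtain ⟨q, hq⟩ := hLNF.1 c (cr (a i) (a j)) (fun k => a (e.symm k : s)) hw (by
      intro k
      have hmem := hs (e.symm k).2
      simp only [Zc, ln, mem_inter, mem_filter, mem_univ, true_and] at hmem
      refine ⟨?_, hmem.2⟩
      rw [(hBAS.1 _ _ _).1]
      exact hmem.1) (fun k l hkl => hPI _ _ (hinj k l hkl))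
    obtain ⟨s', t', h⟩ := hc (a i) (a j) (hPI i j hij)
    apply h
    rw [hq]
    have h0 : ip (cr (a i) (a j)) (s' • a i + t' • a j) = 0 := by
      simp only [ip, cr, Pi.add_apply, Pi.smul_apply, smul_eq_mul, Matrix.cons_val_zero,
        Matrix.cons_val_one, Matrix.cons_val]
      ring
    rw [h0, zero_mul]

end Pool.Agent.GTO.H97
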